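import Pool.Agent.G9.Stmts

/-!
# Squad GNI (MP_094b6b_co), row FIN: transfer to `Fin n`
-/

set_option autoImplicit false

namespace Pool.Agent.G9.H75

open Pool.Agent.G9

theorem ncard_pairs {V : Type} [Fintype V] (G : SimpleGraph V) :
    {q : V × V | G.Adj q.1 q.2}.ncard = 2 * G.edgeSet.ncard := by
  classical
  have h1 : {q : V × V | G.Adj q.1 q.2} = Set.range (fun d : G.Dart => d.toProd) := by
    ext q
    constructor
    · intro hq
      exact ⟨⟨q, hq⟩, rfl⟩
    · rintro ⟨d, rfl⟩
      exact d.adj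
  rw [h1, Set.ncard_range_of_injective (SimpleGraph.Dart.toProd_injective), Nat.card_eq_fintype_card,
    G.dart_card_eq_twice_card_edges, ← SimpleGraph.coe_edgeFinset, Set.ncard_coe_finset]

/-- FIN. -/
theorem fin (hG : GirStmt) : FinStmt := by
  classical
  intro r m K h
  obtain ⟨V, hV, G, hm, hsh, hcut⟩ := h
  let e : V ≃ Fin (Fintype.card V) := Fintype.equivFin V
  let G' : SimpleGraph (Fin (Fintype.card V)) := G.comap e.symm
  refine ⟨Fintype.card V, G', ?_, ?_, ?_⟩
  · have h1 := ncard_pairs G'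
    have h2 : {q : Fin (Fintype.card V) × Fin (Fintype.card V) | G'.Adj q.1 q.2}.ncard =
        {q : V × V | G.Adj q.1 q.2}.ncard := by
      apply Set.ncard_congr (fun q _ => (e.symm q.1, e.symm q.2))
      · intro q hq
        exact hq
      · intro q q' _ _ hqq
        have := Prod.ext_iff.1 hqq
        exact Prod.ext (e.symm.injective this.1) (e.symm.injective this.2)
      · intro q hq
        refine ⟨(e q.1, e q.2), ?_, ?_⟩
        · show G.Adj (e.symm (e q.1)) (e.symm (e q.2))
          simpa using hq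
        · simp
    rw [h2, hm] at h1
    omega
  · refine hG _ G' r ?_
    intro l hl3 hlr
    rw [Set.eq_empty_iff_forall_notMem]
    rintro v ⟨hv1, hv2⟩
    have h1 := hsh l hl3 hlr
    rw [Set.eq_empty_iff_forall_notMem] at h1
    exact h1 (fun i => e.symm (v i)) ⟨fun i j hij => hv1 (e.symm.injective hij), fun i => hv2 i⟩
  · intro S
    have h1 := hcut (e.symm '' S)
    have h2 : {q : Fin (Fintype.card V) × Fin (Fintype.card V) |
        q.1 ∈ S ∧ q.2 ∉ S ∧ G'.Adj q.1 q.2}.ncard =
        {q : V × V | q.1 ∈ e.symm '' S ∧ q.2 ∉ e.symm '' S ∧ G.Adj q.1 q.2}.ncard := by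
      apply Set.ncard_congr (fun q _ => (e.symm q.1, e.symm q.2))
      · rintro q ⟨q1, q2, q3⟩
        refine ⟨⟨q.1, q1, rfl⟩, ?_, q3⟩
        rintro ⟨z, hz, hz'⟩
        exact q2 (e.symm.injective hz' ▸ hz)
      · intro q q' _ _ hqq
        have := Prod.ext_iff.1 hqq
        exact Prod.ext (e.symm.injective this.1) (e.symm.injective this.2)
      · rintro q ⟨⟨z, hz, hz'⟩, q2, q3⟩
        refine ⟨(e q.1, e q.2), ⟨?_, ?_, ?_⟩, ?_⟩
        · rw [← hz']
          simpa using hz
        · intro h
          exact q2 ⟨e q.2, h, by simp⟩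
        · show G.Adj (e.symm (e q.1)) (e.symm (e q.2))
          simpa using q3
        · simp
    rw [h2]
    exact h1

end Pool.Agent.G9.H75
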